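import Pool.Agent.Q66.RX.Stm

/-! JOB RX-POL of project RX (helper66): polars of neighbourhoods of one are compact. -/

set_option autoImplicit false

namespace Pool.Agent.Q252.RX

open Pool.Agent.Q66.RX Topology Filter Set

theorem t_POL (hE : S_EQ) : S_POL := by
  intro G _ _ _ W hW
  have hcl : IsClosed {z : Circle | 0 ≤ rr z} := by
    have hc : Continuous rr := Complex.continuous_re.comp continuous_subtype_val
    exact isClosed_le continuous_const hc
  let S1 : Set (G →* Circle) := {f | ∀ g ∈ W, 0 ≤ rr (f g)}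
  let S2 : Set (ContinuousMonoidHom G Circle) := {f | ∀ g ∈ W, 0 ≤ rr (f g)}
  let S3 : Set C(G, Circle) := (↑) '' S2
  let S4 : Set (G → Circle) := (↑) '' S3
  have h0 : EquicontinuousAt (fun f : S1 ↦ ((f : G →* Circle) : G → Circle)) 1 := by
    rw [((𝓝 (1 : Circle)).basis_sets.uniformity_of_nhds_one).equicontinuousAt_iff_right]
    intro V hV
    obtain ⟨W', hW', hf⟩ := hE G W hW V hV
    refine Filter.eventually_iff_exists_mem.mpr ⟨W', hW', fun x hx ⟨f, hf1⟩ ↦ ?_⟩
    rw [Set.mem_ofPred_eq, map_one, div_one]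
    exact hf f hf1 x hx
  have h : Equicontinuous (fun f : S1 ↦ ((f : G →* Circle) : G → Circle)) :=
    equicontinuous_of_equicontinuousAt_one (fun f : S1 ↦ (f : G →* Circle)) h0
  have hS4 : S4 = (↑) '' S1 := by
    ext
    constructor
    · rintro ⟨-, ⟨f, hf, rfl⟩, rfl⟩
      exact ⟨f, hf, rfl⟩
    · rintro ⟨f, hf, rfl⟩
      exact ⟨⟨f, h.continuous ⟨f, hf⟩⟩, ⟨⟨f, h.continuous ⟨f, hf⟩⟩, hf, rfl⟩, rfl⟩
  have h' : Equicontinuous ((↑) : S3 → G → Circle) := by
    rw [equicontinuous_iff_range, ← Set.image_eq_range] at h ⊢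
    rwa [← hS4] at h
  have hS4' : S4 = Set.pi W (fun _ ↦ {z : Circle | 0 ≤ rr z}) ∩
      Set.range ((↑) : (G →* Circle) → (G → Circle)) := by
    rw [hS4]
    ext f
    constructor
    · rintro ⟨g, hg, rfl⟩
      exact ⟨hg, g, rfl⟩
    · rintro ⟨hg, g, rfl⟩
      exact ⟨g, hg, rfl⟩
  have hS4c : IsClosed S4 :=
    hS4'.symm ▸ (isClosed_set_pi (fun _ _ ↦ hcl)).inter (MonoidHom.isClosed_range_coe G Circle)
  exact ((ContinuousMonoidHom.isInducing_toContinuousMap G Circle).isCompact_iff (s := S2)).mpr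
    (ArzelaAscoli.isCompact_of_equicontinuous S3 hS4c.isCompact h')

end Pool.Agent.Q252.RX
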